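import Pool.Agent.H31.Suit2

set_option autoImplicit false

open Pool.Agent.H31 Topology

theorem Pool.Agent.Results.MP_1c9ee6_al.Neg.result :
    ∃ (G : Type) (_ : AddCommGroup G) (_ : TopologicalSpace G) (_ : LinearOrder G),
      IsTopologicalAddGroup G ∧ OrderTopology G ∧
      (∃ S : Set G, DiscreteTopology S ∧ IsClosed (S ∪ {0}) ∧
        Dense (AddSubgroup.closure S : Set G)) ∧
      ∃ H : AddSubgroup G, ∀ S : Set H, DiscreteTopology S → IsClosed (S ∪ {0}) →
        ¬ Dense (AddSubgroup.closure S : Set H) :=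
  ⟨Suit2.G2, inferInstance, inferInstance, inferInstance, inferInstance, inferInstance,
    ⟨Suit2.S0, Suit2.S0_cd.2.to_subtype, Suit2.S0_cd.1.union isClosed_singleton, by
      rw [Suit2.S0_gen]; exact dense_univ⟩, Suit2.inr.range, Suit2.no2⟩
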